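import Pool.Agent.L0h20.AS.Stm
import Pool.Agent.L0h32.SY.GEN

/-!
# Project AS (helper20), module TRE: the trees of the atoms
-/

set_option autoImplicit false

namespace Pool.Agent.L0h6.AS

open Pool.Agent.L0h36.BG Pool.Agent.L0h36.BF Pool.Agent.L0h20.SY Pool.Agent.L0h20.AS

section tree

variable {V : Type} [DecidableEq V] {q : ℕ}

/-- the depth of the trees which query a list of points -/
lemma qa_reach (g : Finset (Finset V) → Bool) (l : List V) :
    ∀ (a m r : Finset (Finset V)), Reach q (queryAll l (fun x => DT.leaf (g x)) a) m r →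
      (r \ m).card ≤ l.length := by
  induction l with
  | nil =>
    intro a m r h
    rw [queryAll] at h
    rw [h.leaf_inv, Finset.sdiff_self, Finset.card_empty]
    exact Nat.zero_le _
  | cons v l ih =>
    intro a m r h
    rw [queryAll] at h
    cases h with
    | here =>
      rw [Finset.sdiff_self, Finset.card_empty]
      exact Nat.zero_le _
    | covered _ _ _ _ e he hv h =>
      have := ih _ _ _ h
      rw [List.length_cons]
      omega
    | query _ _ _ _ e hv' hv hpm h =>
      have h1 := ih _ _ _ h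
      rw [List.length_cons]
      have h2 : r \ m ⊆ insert e (r \ insert e m) := by
        intro x hx
        rw [Finset.mem_sdiff] at hx
        rw [Finset.mem_insert, Finset.mem_sdiff, Finset.mem_insert]
        by_cases hxe : x = e
        · exact Or.inl hxe
        · exact Or.inr ⟨hx.1, fun h => h.elim hxe hx.2⟩
      have h3 := Finset.card_le_card h2
      have h4 := Finset.card_insert_le e (r \ insert e m)
      omega

/-- the branches of these trees -/
lemma qa_br (g : Finset (Finset V) → Bool) (l : List V) :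
    ∀ (a m r : Finset (Finset V)) (b : Bool), a ⊆ m →
      Br q (queryAll l (fun x => DT.leaf (g x)) a) m r b →
      ∃ a', a ⊆ a' ∧ a' ⊆ r ∧ (∀ v ∈ l, v ∈ cov a') ∧ b = g a' := by
  induction l with
  | nil =>
    intro a m r b ham h
    rw [queryAll] at h
    obtain ⟨h1, h2⟩ := h.leaf_inv
    subst h1
    exact ⟨a, Finset.Subset.refl _, ham, by simp, h2.symm⟩
  | cons v l ih =>
    intro a m r b ham h
    rw [queryAll] at h
    cases h with
    | covered _ _ _ _ _ e he hv h =>
      obtain ⟨a', h1, h2, h3, h4⟩ := ih (insert e a) m r b (Finset.insert_subset he ham) h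
      refine ⟨a', (Finset.subset_insert _ _).trans h1, h2, ?_, h4⟩
      intro w hw
      rcases List.mem_cons.1 hw with rfl | hw
      · exact mem_cov.2 ⟨e, h1 (Finset.mem_insert_self _ _), hv⟩
      · exact h3 w hw
    | query _ _ _ _ _ e hv' hv hpm h =>
      obtain ⟨a', h1, h2, h3, h4⟩ := ih (insert e a) (insert e m) r b
        (Finset.insert_subset_insert _ ham) h
      refine ⟨a', (Finset.subset_insert _ _).trans h1, h2, ?_, h4⟩
      intro w hw
      rcases List.mem_cons.1 hw with rfl | hw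
      · exact mem_cov.2 ⟨e, h1 (Finset.mem_insert_self _ _), hv⟩
      · exact h3 w hw

/-- branches inside a system -/
lemma qa_exists (g : Finset (Finset V) → Bool) {P : Finset (Finset V)} (hP : PM q P) (l : List V) :
    ∀ (a m : Finset (Finset V)), m ⊆ P → (∀ v ∈ l, v ∈ cov P) →
      ∃ r b, Br q (queryAll l (fun x => DT.leaf (g x)) a) m r b ∧ r ⊆ P := by
  induction l with
  | nil =>
    intro a m hm _
    exact ⟨m, g a, Br.leaf _ _, hm⟩
  | cons v l ih =>
    intro a m hm hl
    obtain ⟨e, he, hv⟩ := mem_cov.1 (hl v List.mem_cons_self)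
    by_cases hvm : v ∈ cov m
    · obtain ⟨f, hf, hvf⟩ := mem_cov.1 hvm
      have hfe : f = e := hP.eq_of_mem (hm hf) he hvf hv
      subst hfe
      obtain ⟨r, b, h1, h2⟩ := ih (insert f a) m hm (fun w hw => hl w (List.mem_cons_of_mem _ hw))
      exact ⟨r, b, Br.covered v _ m r b f hf hvf h1, h2⟩
    · have hsub : insert e m ⊆ P := Finset.insert_subset he hm
      obtain ⟨r, b, h1, h2⟩ := ih (insert e a) (insert e m) hsub
        (fun w hw => hl w (List.mem_cons_of_mem _ hw))
      exact ⟨r, b, Br.query v _ m r b e hvm hv (hP.mono hsub) h1, h2⟩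

end tree

lemma self_subs {p : ℕ} {α : Type} : ∀ φ : Fml p α, φ ∈ φ.subs := by
  intro φ
  cases φ with
  | var x => exact rfl
  | _ => exact Set.mem_insert _ _

/-- the minimal support -/
lemma minS_spec {p n k : ℕ} (hk : 2 * k < n) {φ : Fml p (Finset (Fin n))} (hφ : φ ∈ AtK p n k) :
    (minS k φ).card ≤ k ∧ Sup Finset.univ (minS k φ) (cl φ) ∧
    ∀ B' : Finset (Fin n), B'.card ≤ k → Sup Finset.univ B' (cl φ) → minS k φ ⊆ B' := by
  classical
  have hex : ∃ B : Finset (Fin n), B.card ≤ k ∧ Sup Finset.univ B (cl φ) ∧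
      ∀ B' : Finset (Fin n), B'.card ≤ k → Sup Finset.univ B' (cl φ) → B ⊆ B' := by
    obtain ⟨B0, hB0, hS0⟩ := hφ φ (self_subs φ)
    obtain ⟨B, hB, hmin⟩ := Finset.exists_min_image
      (Finset.univ.filter (fun B : Finset (Fin n) => B.card ≤ k ∧ Sup Finset.univ B (cl φ)))
      Finset.card ⟨B0, Finset.mem_filter.2 ⟨Finset.mem_univ _, hB0, hS0⟩⟩
    rw [Finset.mem_filter] at hB
    refine ⟨B, hB.2.1, hB.2.2, fun B' hB' hS' => ?_⟩
    have h1 : ∃ w ∈ (Finset.univ : Finset (Fin n)), w ∉ B ∧ w ∉ B' := by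
      by_contra hcon
      push Not at hcon
      have h2 : (Finset.univ : Finset (Fin n)) ⊆ B ∪ B' := by
        intro w hw
        rw [Finset.mem_union]
        by_cases hwB : w ∈ B
        · exact Or.inl hwB
        · exact Or.inr (hcon w hw hwB)
      have h3 := Finset.card_le_card h2
      rw [Finset.card_univ, Fintype.card_fin] at h3
      have h4 := Finset.card_union_le B B'
      have h5 := hB.2.1
      omega
    have h2 := Pool.Agent.L0h32.SY.t_INT (Fin n) (Cl p n) Finset.univ B B' (cl φ) hB.2.2 hS' h1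
    have h3 := hmin (B ∩ B') (Finset.mem_filter.2 ⟨Finset.mem_univ _,
      (Finset.card_le_card Finset.inter_subset_left).trans hB.2.1, h2⟩)
    have h4 : B ∩ B' = B := Finset.eq_of_subset_of_card_le Finset.inter_subset_left h3
    intro x hx
    rw [← h4] at hx
    exact (Finset.mem_inter.1 hx).2
  unfold minS
  rw [dif_pos hex]
  exact hex.choose_spec

/-- TRE -/
theorem t_TRE (h : S_VAL) : S_TRE := by
  classical
  intro p q n k r₀ hq hk φ hφ
  obtain ⟨s1, s2, s3⟩ := minS_spec hk hφ
  have hT : T0 q k r₀ φ = queryAll (minS k φ).toList (fun m => .leaf (decide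
    (∃ P R, Pseudo q r₀ P R ∧ m ⊆ P ∧ V Finset.univ R k P φ))) ∅ := by
    unfold T0
    rw [if_pos hφ]
  have hbr : ∀ (ρ m : Finset (Finset (Fin n))) (b : Bool), Br q (T0 q k r₀ φ) ρ m b →
    minS k φ ⊆ cov m ∧ ∀ P R, Pseudo q r₀ P R → m ⊆ P → (b = true ↔ V Finset.univ R k P φ) := by
    intro ρ m b hb
    rw [hT] at hb
    obtain ⟨a, -, h2, h3, h4⟩ := qa_br _ _ ∅ ρ m b (Finset.empty_subset _) hb
    have h5 : minS k φ ⊆ cov a := fun v hv => h3 v (Finset.mem_toList.2 hv)
    refine ⟨h5.trans (cov_mono h2), fun P R hP hm => ?_⟩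
    rw [h4, decide_eq_true_iff]
    constructor
    · rintro ⟨P0, R0, g1, g2, g3⟩
      exact (h p q n k r₀ P0 P a R0 R (minS k φ) φ hq g1 hP g2 (h2.trans hm) h5 s2).1 g3
    · intro hV
      exact ⟨P, R, hP, h2.trans hm, hV⟩
  refine ⟨⟨s1, s2, s3⟩, ?_, fun ρ m b _ hb => hbr ρ m b hb, ?_⟩
  · intro ρ _ r hr
    rw [hT] at hr
    have := qa_reach _ _ _ _ _ hr
    rw [Finset.length_toList] at this
    exact this.trans s1
  · intro ρ P R hP hρ hd
    have hcov : ∀ v ∈ (minS k φ).toList, v ∈ cov P := by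
      intro v hv
      rw [hP.2.2, Finset.mem_sdiff]
      exact ⟨Finset.mem_univ _, Finset.disjoint_left.1 hd (Finset.mem_toList.1 hv)⟩
    obtain ⟨m, b, h1, h2⟩ := qa_exists (fun m => decide
      (∃ P R, Pseudo q r₀ P R ∧ m ⊆ P ∧ V Finset.univ R k P φ)) hP.2.1 _ ∅ ρ hρ hcov
    rw [← hT] at h1
    exact ⟨m, b, h1, h2, (hbr ρ m b h1).2 P R hP h2⟩

end Pool.Agent.L0h6.AS
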