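import Pool.Agent.L0h20.AS.Stm

/-!
# Project AS (helper20), module VAL: the value depends only on the sets which meet a support
-/

set_option autoImplicit false

namespace Pool.Agent.L0h6.AS

open Pool.Agent.L0h36.BG Pool.Agent.L0h36.BF Pool.Agent.L0h20.SY Pool.Agent.L0h20.AS

variable {n : ℕ}

lemma map_mul' (σ τ : Equiv.Perm (Fin n)) (e : Finset (Fin n)) :
    e.map (σ * τ).toEmbedding = (e.map τ.toEmbedding).map σ.toEmbedding := by
  rw [Finset.map_map]
  rfl

lemma map_inj' (σ : Equiv.Perm (Fin n)) {e f : Finset (Fin n)}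
    (h : e.map σ.toEmbedding = f.map σ.toEmbedding) : e = f := Finset.map_injective _ h

lemma map_one' (e : Finset (Fin n)) : e.map (1 : Equiv.Perm (Fin n)).toEmbedding = e := by
  ext x
  rw [Finset.mem_map]
  constructor
  · rintro ⟨y, hy, rfl⟩
    exact hy
  · intro h
    exact ⟨x, h, rfl⟩

lemma mem_map' {σ : Equiv.Perm (Fin n)} {e : Finset (Fin n)} {x : Fin n} :
    σ x ∈ e.map σ.toEmbedding ↔ x ∈ e := by
  rw [Finset.mem_map]
  constructor
  · rintro ⟨y, hy, h⟩
    have h' : σ y = σ x := h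
    rw [← σ.injective h']
    exact hy
  · intro h
    exact ⟨x, h, rfl⟩

/-- the image of a system -/
lemma pm_image {q : ℕ} {P : Finset (Finset (Fin n))} (h : PM q P) (σ : Equiv.Perm (Fin n)) :
    PM q (P.image fun e => e.map σ.toEmbedding) := by
  constructor
  · intro e he
    obtain ⟨f, hf, rfl⟩ := Finset.mem_image.1 he
    rw [Finset.card_map]
    exact h.1 f hf
  · intro e he f hf hne
    obtain ⟨e', he', rfl⟩ := Finset.mem_image.1 he
    obtain ⟨f', hf', rfl⟩ := Finset.mem_image.1 hf
    rw [Finset.disjoint_map]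
    exact h.2 e' he' f' hf' (fun h => hne (by rw [h]))

lemma cov_image (P : Finset (Finset (Fin n))) (σ : Equiv.Perm (Fin n)) :
    cov (P.image fun e => e.map σ.toEmbedding) = (cov P).map σ.toEmbedding := by
  ext x
  rw [mem_cov, Finset.mem_map]
  constructor
  · rintro ⟨e, he, hx⟩
    obtain ⟨f, hf, rfl⟩ := Finset.mem_image.1 he
    obtain ⟨y, hy, rfl⟩ := Finset.mem_map.1 hx
    exact ⟨y, mem_cov.2 ⟨f, hf, hy⟩, rfl⟩
  · rintro ⟨y, hy, rfl⟩
    obtain ⟨f, hf, hy'⟩ := mem_cov.1 hy
    exact ⟨_, Finset.mem_image_of_mem _ hf, Finset.mem_map.2 ⟨y, hy', rfl⟩⟩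

lemma pseudo_image {q r₀ : ℕ} {P : Finset (Finset (Fin n))} {R : Finset (Fin n)}
    (h : Pseudo q r₀ P R) (σ : Equiv.Perm (Fin n)) :
    Pseudo q r₀ (P.image fun e => e.map σ.toEmbedding) (R.map σ.toEmbedding) := by
  refine ⟨by rw [Finset.card_map]; exact h.1, pm_image h.2.1 σ, ?_⟩
  rw [cov_image, h.2.2]
  ext x
  obtain ⟨y, rfl⟩ := σ.surjective x
  rw [mem_map', Finset.mem_sdiff, Finset.mem_sdiff, mem_map']
  simp

/-- a permutation which fixes the points of `C` and maps `e` to `f` -/
lemma exists_perm {C e f : Finset (Fin n)} (he : Disjoint e C) (hf : Disjoint f C)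
    (hc : e.card = f.card) :
    ∃ σ : Equiv.Perm (Fin n), (∀ x ∈ C, σ x = x) ∧ e.map σ.toEmbedding = f := by
  classical
  let g : e ≃ f := Finset.equivOfCardEq hc
  let F : Fin n → Fin n := fun x => if h : x ∈ e then (g ⟨x, h⟩ : Fin n) else x
  have hFe : ∀ x (h : x ∈ e), F x = (g ⟨x, h⟩ : Fin n) := fun x h => dif_pos h
  have hFn : ∀ x, x ∉ e → F x = x := fun x h => dif_neg h
  have hFe' : ∀ x ∈ e, F x ∈ f := fun x h => by rw [hFe x h]; exact (g ⟨x, h⟩).2
  have hinj : Set.InjOn F ((C ∪ e : Finset (Fin n)) : Set (Fin n)) := by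
    intro x hx y hy hxy
    rw [Finset.mem_coe, Finset.mem_union] at hx hy
    by_cases hxe : x ∈ e
    · by_cases hye : y ∈ e
      · rw [hFe x hxe, hFe y hye] at hxy
        have := g.injective (Subtype.ext hxy)
        exact congrArg Subtype.val this
      · have hyC : y ∈ C := hy.resolve_right hye
        rw [hFn y hye] at hxy
        have h1 := hFe' x hxe
        rw [hxy] at h1
        exact absurd hyC (Finset.disjoint_left.1 hf h1)
    · have hxC : x ∈ C := hx.resolve_right hxe
      by_cases hye : y ∈ e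
      · rw [hFn x hxe] at hxy
        have h1 := hFe' y hye
        rw [← hxy] at h1
        exact absurd hxC (Finset.disjoint_left.1 hf h1)
      · rw [hFn x hxe, hFn y hye] at hxy
        exact hxy
  obtain ⟨G, hG⟩ := Finset.exists_equiv_extend_of_card_eq (α := Fin n) (t := Finset.univ)
    (by rw [Finset.card_univ]) (Finset.subset_univ ((C ∪ e).image F)) hinj
  let σ : Equiv.Perm (Fin n) := G.trans (Equiv.subtypeUnivEquiv (fun x => Finset.mem_univ x))
  have hσ : ∀ x ∈ C ∪ e, σ x = F x := hG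
  refine ⟨σ, fun x hx => ?_, ?_⟩
  · rw [hσ x (Finset.mem_union_left _ hx), hFn x (fun h => Finset.disjoint_left.1 he h hx)]
  · apply Finset.eq_of_subset_of_card_le
    · intro y hy
      obtain ⟨x, hx, rfl⟩ := Finset.mem_map.1 hy
      show σ x ∈ f
      rw [hσ x (Finset.mem_union_right _ hx)]
      exact hFe' x hx
    · rw [Finset.card_map, hc]

/-- a permutation between two partitions -/
lemma exists_move {q r₀ : ℕ} (hq : 1 ≤ q) {P' : Finset (Finset (Fin n))} {R' : Finset (Fin n)}
    (h' : Pseudo q r₀ P' R') (N : ℕ) : ∀ (m P : Finset (Finset (Fin n))) (R : Finset (Fin n)),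
    Pseudo q r₀ P R → m ⊆ P → m ⊆ P' → (P \ m).card = N →
    ∃ σ : Equiv.Perm (Fin n), (∀ x ∈ cov m, σ x = x) ∧
      (P.image fun e => e.map σ.toEmbedding) = P' ∧ R.map σ.toEmbedding = R' := by
  classical
  have hcards : ∀ (P : Finset (Finset (Fin n))) (R : Finset (Fin n)), Pseudo q r₀ P R →
      P.card = P'.card := by
    intro P R h
    have h1 := h.2.1.card_cov
    have h2 := h'.2.1.card_cov
    rw [h.2.2, Finset.card_sdiff_of_subset (Finset.subset_univ _), h.1] at h1
    rw [h'.2.2, Finset.card_sdiff_of_subset (Finset.subset_univ _), h'.1] at h2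
    rw [h1] at h2
    exact Nat.eq_of_mul_eq_mul_left hq h2
  induction N with
  | zero =>
    intro m P R h hmP hmP' hN
    have h1 : P ⊆ m := by
      rw [Finset.card_eq_zero, Finset.sdiff_eq_empty_iff_subset] at hN
      exact hN
    have h2 : m = P := Finset.Subset.antisymm hmP h1
    subst h2
    have h3 : m = P' := Finset.eq_of_subset_of_card_le hmP' (hcards m R h).ge
    subst h3
    have h4 : R = R' := by
      have e1 := h.2.2
      have e2 := h'.2.2
      rw [e1] at e2
      ext x
      have e3 : x ∈ Finset.univ \ R ↔ x ∈ Finset.univ \ R' := by rw [e2]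
      rw [Finset.mem_sdiff, Finset.mem_sdiff] at e3
      have := Finset.mem_univ x
      tauto
    refine ⟨1, fun x _ => rfl, ?_, by rw [map_one', h4]⟩
    rw [Finset.image_congr (g := id) (fun e _ => map_one' e), Finset.image_id]
  | succ N ih =>
    intro m P R h hmP hmP' hN
    obtain ⟨e, he⟩ : (P \ m).Nonempty := Finset.card_pos.1 (by omega)
    have hN' : (P' \ m).card = N + 1 := by
      have h1 := hcards P R h
      rw [Finset.card_sdiff_of_subset hmP] at hN
      rw [Finset.card_sdiff_of_subset hmP']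
      omega
    obtain ⟨f, hf⟩ : (P' \ m).Nonempty := Finset.card_pos.1 (by omega)
    rw [Finset.mem_sdiff] at he hf
    have hd : ∀ (Q : Finset (Finset (Fin n))), PM q Q → m ⊆ Q → ∀ a ∈ Q, a ∉ m → Disjoint a (cov m) := by
      intro Q hQ hmQ a ha ham
      exact (hQ.mono (Finset.insert_subset ha hmQ)).disjoint_cov_of_insert ham
    obtain ⟨s, hs1, hs2⟩ := exists_perm (hd P h.2.1 hmP e he.1 he.2) (hd P' h'.2.1 hmP' f hf.1 hf.2)
      ((h.2.1.1 e he.1).trans (h'.2.1.1 f hf.1).symm)
    have hmfix : ∀ a ∈ m, a.map s.toEmbedding = a := fun a ha =>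
      map_eq_of_fix (fun x hx => hs1 x (mem_cov.2 ⟨a, ha, hx⟩))
    have hm1 : insert f m ⊆ P.image fun e => e.map s.toEmbedding := by
      intro a ha
      rcases Finset.mem_insert.1 ha with rfl | ha
      · exact Finset.mem_image.2 ⟨e, he.1, hs2⟩
      · exact Finset.mem_image.2 ⟨a, hmP ha, hmfix a ha⟩
    have hcard : ((P.image fun e => e.map s.toEmbedding) \ insert f m).card = N := by
      rw [Finset.card_sdiff_of_subset hm1, Finset.card_image_of_injective _ (fun a b hab => map_inj' s hab),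
        Finset.card_insert_of_notMem hf.2]
      rw [Finset.card_sdiff_of_subset hmP] at hN
      omega
    obtain ⟨t, ht1, ht2, ht3⟩ := ih (insert f m) _ _ (pseudo_image h s) hm1
      (Finset.insert_subset hf.1 hmP') hcard
    refine ⟨t * s, fun x hx => ?_, ?_, ?_⟩
    · rw [Equiv.Perm.mul_apply, hs1 x hx]
      exact ht1 x (cov_mono (Finset.subset_insert _ _) hx)
    · rw [← ht2, Finset.image_image]
      apply Finset.image_congr
      intro a _
      exact map_mul' t s a
    · rw [map_mul', ht3]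

/-- VAL -/
theorem t_VAL (h : S_EQV) : S_VAL := by
  intro p q n k r₀ P P' m R R' A φ hq hP hP' hm hm' hA hS
  obtain ⟨σ, h1, h2, h3⟩ := exists_move hq hP' _ m P R hP hm hm' rfl
  have h4 := h p n k R P σ φ
  rw [h2, h3] at h4
  have h5 : σ • cl φ = cl φ := hS σ (fun x hx => absurd (Finset.mem_univ x) hx)
    (fun a ha => h1 a (hA ha))
  rw [smul_cl] at h5
  have h6 : V Finset.univ R' k P' (image σ φ) ↔ V Finset.univ R' k P' φ := V_same (cl_eq.1 h5)
  rw [← h4, h6]

end Pool.Agent.L0h6.AS
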